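import Mathlib

/-!
A lower bound for the smallest `k` with `hp_r(k) = r`.

The parts are `{i} × Fin (r+1)`, an edge or a transversal is a function `Fin r → Fin (r+1)`.
Let `T` consist of the words over `{0,1}` with `r/2` or `r/2 + 1` ones and of the words over `{0,2}`
with `j - 1` or `j` zeros, and let `H` be the set of edges disjoint from at most one word of `T`.
-/

namespace Pool.Agent.Results.MP_b5d674_co.LowerBound

open Finset

variable {r : ℕ}

/-- Two consecutive layers of the cube. -/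
def layers (r s : ℕ) : Finset (Finset (Fin r)) := univ.filter fun J => J.card + 1 = s ∨ J.card = s

theorem card_layers (r s : ℕ) : (layers r s).card = (r + 1).choose s := by
  have h : ∀ t, (univ.filter fun J : Finset (Fin r) => J.card = t).card = r.choose t := by
    intro t
    have h1 := card_powersetCard t (univ : Finset (Fin r))
    rw [card_univ, Fintype.card_fin] at h1
    rw [← h1]
    congr 1
    ext J
    simp
  cases s with
  | zero =>
    have := h 0
    simpa [layers] using this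
  | succ s =>
    rw [layers, filter_or, card_union_of_disjoint, Nat.choose_succ_succ, h]
    · simp only [Nat.add_right_cancel_iff, h]
    · exact disjoint_filter.2 fun J _ h1 h2 => by omega

theorem card_add_le {J S : Finset (Fin r)} (h : Disjoint J S) : J.card + S.card ≤ r := by
  rw [← card_union_of_disjoint h]
  simpa using card_le_univ (J ∪ S)

theorem none_left {s : ℕ} {S S' J : Finset (Fin r)} (h : s < S.card ∨ r + 1 < s + S'.card)
    (hJ : J ∈ layers r s) (h1 : S ⊆ J) (h2 : Disjoint J S') : False := by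
  have h3 := card_le_card h1
  have h4 := card_add_le h2
  have h5 := (mem_filter.1 hJ).2
  omega

theorem one_left {s : ℕ} {S S' J K : Finset (Fin r)} (h : s ≤ S.card ∨ r + 1 ≤ s + S'.card)
    (hJ : J ∈ layers r s) (h1 : S ⊆ J) (h2 : Disjoint J S') (hK : K ∈ layers r s) (h3 : S ⊆ K)
    (h4 : Disjoint K S') : J = K := by
  have h5 := (mem_filter.1 hJ).2
  have h6 := (mem_filter.1 hK).2
  rcases h with h | h
  · rw [← eq_of_subset_of_card_le h1 (by omega), ← eq_of_subset_of_card_le h3 (by omega)]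
  · have h7 : S'ᶜ.card + S'.card = r := by simp
    rw [eq_of_subset_of_card_le (le_compl_iff_disjoint_right.2 h2) (by omega),
      eq_of_subset_of_card_le (le_compl_iff_disjoint_right.2 h4) (by omega)]

theorem hall (B B' : Finset (Fin r)) (p q : ℕ) (h1 : p + B.card ≤ r) (h2 : q + B'.card ≤ r)
    (h3 : p + q + (B ∩ B').card ≤ r) : ∃ U U' : Finset (Fin r), Disjoint U U' ∧ Disjoint U B ∧
      Disjoint U' B' ∧ p ≤ U.card ∧ q ≤ U'.card := by
  have e1 : Bᶜ.card + B.card = r := by simp
  have e2 : B'ᶜ.card + B'.card = r := by simp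
  have hs : B' \ B ⊆ Bᶜ := fun i hi => mem_compl.2 (mem_sdiff.1 hi).2
  rcases le_total p (B' \ B).card with h | h
  · exact ⟨B' \ B, B'ᶜ, disjoint_compl_right.mono_left sdiff_subset, sdiff_disjoint,
      disjoint_compl_left, h, by omega⟩
  · obtain ⟨U, u1, u2, u3⟩ := exists_subsuperset_card_eq hs h (by omega : p ≤ Bᶜ.card)
    refine ⟨U, (U ∪ B')ᶜ, disjoint_compl_right.mono_left subset_union_left,
      disjoint_compl_left.mono_left u2, disjoint_compl_left.mono_right subset_union_right,
      u3.ge, ?_⟩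
    have e3 : (U ∪ B')ᶜ.card + (U ∪ B').card = r := by simpa using card_compl_add_card (U ∪ B')
    have e4 : U ∪ B' ⊆ U ∪ B ∩ B' := by
      intro i hi
      rcases mem_union.1 hi with hi | hi
      · exact mem_union_left _ hi
      · by_cases hb : i ∈ B
        · exact mem_union_right _ (mem_inter.2 ⟨hb, hi⟩)
        · exact mem_union_left _ (u1 (mem_sdiff.2 ⟨hi, hb⟩))
    have e5 := (card_le_card e4).trans (card_union_le _ _)
    omega

variable {α : Type*} [DecidableEq α]

/-- The positions of a letter in a word. -/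
def pos (e : Fin r → α) (c : α) : Finset (Fin r) := univ.filter fun i => e i = c

/-- The positions where a letter is blocked. -/
def blk (C : Finset (Fin r × α)) (c : α) : Finset (Fin r) := univ.filter fun i => (i, c) ∈ C

theorem exists_word [Fintype α] (hα : r < Fintype.card α) {C : Finset (Fin r × α)}
    (hC : C.card ≤ r) {c c' : α} (p q : ℕ) (h1 : p + (blk C c).card ≤ r)
    (h2 : q + (blk C c').card ≤ r) (h3 : p + q + (blk C c ∩ blk C c').card ≤ r) :
    ∃ e : Fin r → α, (∀ i, (i, e i) ∉ C) ∧ p ≤ (pos e c).card ∧ q ≤ (pos e c').card := by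
  obtain ⟨U, U', d1, d2, d3, u1, u2⟩ := hall _ _ p q h1 h2 h3
  have hg : ∀ i : Fin r, ∃ x : α, (i, x) ∉ C := by
    intro i
    by_contra hx
    push Not at hx
    have := card_le_card_of_injOn (s := univ) (t := C) (fun x : α => (i, x)) (fun x _ => hx x)
      fun x _ y _ h => (Prod.ext_iff.1 h).2
    rw [card_univ] at this
    omega
  choose g hg using hg
  refine ⟨fun i => if i ∈ U then c else if i ∈ U' then c' else g i, fun i => ?_,
    u1.trans (card_le_card fun i hi => ?_), u2.trans (card_le_card fun i hi => ?_)⟩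
  · dsimp only
    split_ifs with h4 h5
    · exact fun h => disjoint_left.1 d2 h4 (mem_filter.2 ⟨mem_univ _, h⟩)
    · exact fun h => disjoint_left.1 d3 h5 (mem_filter.2 ⟨mem_univ _, h⟩)
    · exact hg i
  · simp [pos, hi]
  · simp [pos, hi, disjoint_right.1 d1 hi]

theorem blk_sum (C : Finset (Fin r × α)) {x y z : α} (hxy : x ≠ y) (hxz : x ≠ z) (hyz : y ≠ z) :
    (blk C x).card + (blk C y).card + (blk C z).card ≤ C.card := by
  have h : ∀ c, (blk C c).card ≤ (C.filter fun v => v.2 = c).card := fun c =>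
    card_le_card_of_injOn (fun i => (i, c))
      (fun i hi => mem_coe.2 (mem_filter.2 ⟨(mem_filter.1 hi).2, rfl⟩))
      fun i _ k _ h => (Prod.ext_iff.1 h).1
  have d : ∀ {c c' : α}, c ≠ c' → Disjoint (C.filter fun v => v.2 = c) (C.filter fun v => v.2 = c') :=
    fun hc => disjoint_filter.2 fun v _ h1 h2 => hc (h1.symm.trans h2)
  refine (add_le_add (add_le_add (h x) (h y)) (h z)).trans ?_
  rw [← card_union_of_disjoint (d hxy),
    ← card_union_of_disjoint (disjoint_union_left.2 ⟨d hxz, d hyz⟩)]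
  exact card_le_card (union_subset (union_subset (filter_subset _ _) (filter_subset _ _))
    (filter_subset _ _))

/-- The word with `x` on `J` and `y` elsewhere. -/
def word (x y : α) (J : Finset (Fin r)) : Fin r → α := fun i => if i ∈ J then x else y

theorem of_miss {x y : α} {J : Finset (Fin r)} {e : Fin r → α} (h : ∀ i, e i ≠ word x y J i) :
    pos e y ⊆ J ∧ Disjoint J (pos e x) := by
  refine ⟨fun i hi => ?_, disjoint_left.2 fun i hi hi' => ?_⟩
  · by_contra hc
    exact h i (by rw [word, if_neg hc]; exact (mem_filter.1 hi).2)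
  · exact h i (by rw [word, if_pos hi]; exact (mem_filter.1 hi').2)

theorem key [Fintype α] (hα : r < Fintype.card α) {x y z : α} (hxy : x ≠ y) (hxz : x ≠ z)
    (hyz : y ≠ z) {j : ℕ} (hj : 6 * j + 4 ≤ r) {C : Finset (Fin r × α)} (hC : C.card ≤ r) :
    ∃ e : Fin r → α, (∀ i, (i, e i) ∉ C) ∧
      ((r / 2 + 1 < (pos e x).card ∨ r + 1 < r / 2 + 1 + (pos e y).card) ∧
          (j ≤ (pos e z).card ∨ r + 1 ≤ j + (pos e x).card) ∨
        (r / 2 + 1 ≤ (pos e x).card ∨ r + 1 ≤ r / 2 + 1 + (pos e y).card) ∧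
          (j < (pos e z).card ∨ r + 1 < j + (pos e x).card)) := by
  have h0 := blk_sum C hxy hxz hyz
  have i1 := card_le_card (inter_subset_left : blk C x ∩ blk C z ⊆ _)
  have i2 := card_le_card (inter_subset_right : blk C x ∩ blk C z ⊆ _)
  have i3 := card_le_card (inter_subset_left : blk C y ∩ blk C z ⊆ _)
  have i4 := card_le_card (inter_subset_right : blk C y ∩ blk C z ⊆ _)
  by_cases c1 : (blk C x).card + 1 ≤ j
  · obtain ⟨e, h1, h2, h3⟩ := exists_word hα hC (c := x) (c' := z) (r + 1 - j) 0 (by omega)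
      (by omega) (by omega)
    exact ⟨e, h1, by omega⟩
  by_cases c2 : r ≤ (blk C z).card + j
  · obtain ⟨e, h1, h2, h3⟩ := exists_word hα hC (c := y) (c' := z) (r - j) j (by omega)
      (by omega) (by omega)
    exact ⟨e, h1, by omega⟩
  by_cases c3 : r / 2 + 1 + (blk C x).card ≤ r ∧ r / 2 + 1 + (j + 1) + (blk C x ∩ blk C z).card ≤ r
  · obtain ⟨e, h1, h2, h3⟩ := exists_word hα hC (c := x) (c' := z) (r / 2 + 1) (j + 1) c3.1
      (by omega) c3.2
    exact ⟨e, h1, by omega⟩
  · obtain ⟨e, h1, h2, h3⟩ := exists_word hα hC (c := y) (c' := z) (r - r / 2) (j + 1) (by omega)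
      (by omega) (by omega)
    exact ⟨e, h1, by omega⟩

theorem main [Fintype α] (hα : r < Fintype.card α) {x y z : α} (hxy : x ≠ y) (hxz : x ≠ z)
    (hyz : y ≠ z) {j : ℕ} (hj : 6 * j + 4 ≤ r) :
    ∃ H : Finset (Fin r → α),
      (∀ F ⊆ H, F.card < (r + 1).choose (r / 2 + 1) + (r + 1).choose j →
        ∃ t : Fin r → α, ∀ e ∈ F, ∃ i, e i = t i) ∧
      ∀ C : Finset (Fin r × α), (∀ e ∈ H, ∃ i, (i, e i) ∈ C) → r < C.card := by
  classical
  set A := (layers r (r / 2 + 1)).disjSum (layers r j) with hA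
  set f : Finset (Fin r) ⊕ Finset (Fin r) → Fin r → α := Sum.elim (word y x) (word x z) with hf
  set M : (Fin r → α) → Finset (Finset (Fin r) ⊕ Finset (Fin r)) :=
    fun e => A.filter fun u => ∀ i, e i ≠ f u i with hM
  refine ⟨univ.filter fun e => (M e).card ≤ 1, fun F hF hlt => ?_, fun C hC => ?_⟩
  · have h1 : (F.biUnion M).card < A.card := by
      refine (card_biUnion_le_card_mul F M 1 fun e he => (mem_filter.1 (hF he)).2).trans_lt ?_
      rwa [hA, card_disjSum, card_layers, card_layers, mul_one]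
    obtain ⟨u, hu, hu'⟩ := exists_mem_notMem_of_card_lt_card h1
    refine ⟨f u, fun e he => ?_⟩
    by_contra hc
    push Not at hc
    exact hu' (mem_biUnion.2 ⟨e, he, mem_filter.2 ⟨hu, hc⟩⟩)
  · by_contra hc
    obtain ⟨e, h1, h2⟩ := key hα hxy hxz hyz hj (not_lt.1 hc)
    refine (hC e (mem_filter.2 ⟨mem_univ _, card_le_one.2 fun u hu v hv => ?_⟩)).elim h1
    have l : ∀ {J}, Sum.inl J ∈ M e →
        J ∈ layers r (r / 2 + 1) ∧ pos e x ⊆ J ∧ Disjoint J (pos e y) := fun h =>
      ⟨inl_mem_disjSum.1 (mem_filter.1 h).1, of_miss (mem_filter.1 h).2⟩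
    have m : ∀ {J}, Sum.inr J ∈ M e → J ∈ layers r j ∧ pos e z ⊆ J ∧ Disjoint J (pos e x) :=
      fun h => ⟨inr_mem_disjSum.1 (mem_filter.1 h).1, of_miss (mem_filter.1 h).2⟩
    rcases h2 with ⟨h2, h3⟩ | ⟨h2, h3⟩
    · rcases u with J | J
      · exact (none_left h2 (l hu).1 (l hu).2.1 (l hu).2.2).elim
      rcases v with K | K
      · exact (none_left h2 (l hv).1 (l hv).2.1 (l hv).2.2).elim
      rw [one_left h3 (m hu).1 (m hu).2.1 (m hu).2.2 (m hv).1 (m hv).2.1 (m hv).2.2]
    · rcases u with J | J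
      swap
      · exact (none_left h3 (m hu).1 (m hu).2.1 (m hu).2.2).elim
      rcases v with K | K
      swap
      · exact (none_left h3 (m hv).1 (m hv).2.1 (m hv).2.2).elim
      rw [one_left h2 (l hu).1 (l hu).2.1 (l hu).2.2 (l hv).1 (l hv).2.1 (l hv).2.2]

theorem result (r j : ℕ) (hj : 6 * j + 4 ≤ r) :
    ∃ H : Finset (Fin r → Fin (r + 1)),
      (∀ F ⊆ H, F.card < (r + 1).choose ((r + 1) / 2) + (r + 1).choose j →
        ∃ t : Fin r → Fin (r + 1), ∀ e ∈ F, ∃ i, e i = t i) ∧
      ∀ C : Finset (Fin r × Fin (r + 1)), (∀ e ∈ H, ∃ i, (i, e i) ∈ C) → r < C.card := by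
  have h1 : (r + 1).choose ((r + 1) / 2) = (r + 1).choose (r / 2 + 1) := by
    rcases Nat.even_or_odd' r with ⟨m, rfl | rfl⟩
    · rw [show (2 * m + 1) / 2 = m by omega, show 2 * m / 2 + 1 = m + 1 by omega]
      exact (Nat.choose_symm_half m).symm
    · congr 1
      omega
  rw [h1]
  exact main (x := ⟨0, by omega⟩) (y := ⟨1, by omega⟩) (z := ⟨2, by omega⟩) (by simp)
    (by simp [Fin.ext_iff]) (by simp [Fin.ext_iff]) (by simp [Fin.ext_iff]) hj

end Pool.Agent.Results.MP_b5d674_co.LowerBound
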