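import Pool.Agent.Work.MP_b5d674_co.L.Th

/-!
The smallest `k` with `hp_r(k) = r` has order `2 ^ r`.
-/

namespace Pool.Agent.Results.MP_b5d674_co.Theta

open Pool.Agent.Work.MP_b5d674_co.L

theorem result :
    Asymptotics.IsTheta Filter.atTop (fun r : ℕ => (k0 r : ℝ)) (fun r : ℕ => (2 : ℝ) ^ r) :=
  up_theta th_order

end Pool.Agent.Results.MP_b5d674_co.Theta
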